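import Mathlib

/-!
Definitions for MP_4ab6d1_pr: geodesic triangles, (anchored) Gromov hyperbolicity, the free
FK-Ising measure on an infinite graph and its critical probability.
-/

open MeasureTheory Filter Topology

namespace Pool.Agent.Q290.AH

universe u

variable {V : Type u}

/-- The walk `w` is a geodesic of `Γ`. -/
def IsGeod (Γ : SimpleGraph V) {x y : V} (w : Γ.Walk x y) : Prop := w.length = Γ.dist x y

/-- The triangle with sides `a`, `b`, `c` is `δ`-thin: every vertex of a side is within distance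
`δ` of the union of the two other sides. -/
def IsThin (Γ : SimpleGraph V) (δ : ℕ) {x y z : V} (a : Γ.Walk x y) (b : Γ.Walk y z)
    (c : Γ.Walk z x) : Prop :=
  (∀ s ∈ a.support, ∃ w, (w ∈ b.support ∨ w ∈ c.support) ∧ Γ.dist s w ≤ δ) ∧
  (∀ s ∈ b.support, ∃ w, (w ∈ a.support ∨ w ∈ c.support) ∧ Γ.dist s w ≤ δ) ∧
  (∀ s ∈ c.support, ∃ w, (w ∈ a.support ∨ w ∈ b.support) ∧ Γ.dist s w ≤ δ)

/-- Gromov hyperbolicity of a connected graph: all geodesic triangles are `δ`-thin for one `δ`. -/
def GromovHyperbolic (Γ : SimpleGraph V) : Prop :=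
  ∃ δ : ℕ, ∀ (x y z : V) (a : Γ.Walk x y) (b : Γ.Walk y z) (c : Γ.Walk z x),
    IsGeod Γ a → IsGeod Γ b → IsGeod Γ c → IsThin Γ δ a b c

/-- Anchored Gromov hyperbolicity of a connected graph: for every vertex `v` all geodesic
triangles passing through `v` are `δ(v)`-thin. -/
def AnchoredHyperbolic (Γ : SimpleGraph V) : Prop :=
  ∀ v : V, ∃ δ : ℕ, ∀ (x y z : V) (a : Γ.Walk x y) (b : Γ.Walk y z) (c : Γ.Walk z x),
    IsGeod Γ a → IsGeod Γ b → IsGeod Γ c →
      (v ∈ a.support ∨ v ∈ b.support ∨ v ∈ c.support) → IsThin Γ δ a b c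

/-- Percolation configurations on `G` (`true` = open). -/
abbrev Conf (G : SimpleGraph V) : Type u := G.edgeSet → Bool

/-- The open subgraph of a configuration. -/
def openGraph (G : SimpleGraph V) (ω : Conf G) : SimpleGraph V :=
  SimpleGraph.fromEdgeSet {e | ∃ h : e ∈ G.edgeSet, ω ⟨e, h⟩ = true}

/-- A finite subgraph `H = (V_H, E_H)` of `G`. -/
structure FinSub (G : SimpleGraph V) where
  /-- the vertices -/
  verts : Finset V
  /-- the edges -/
  edges : Finset (Sym2 V)
  edges_sub : ∀ e ∈ edges, e ∈ G.edgeSet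
  ends : ∀ e ∈ edges, ∀ v ∈ e, v ∈ verts

/-- The number `k(S)` of connected components of the graph `(V_H, S)`. -/
noncomputable def numComp {G : SimpleGraph V} (H : FinSub G) (S : Finset (Sym2 V)) : ℕ :=
  Nat.card ((SimpleGraph.fromEdgeSet (S : Set (Sym2 V))).induce
    (H.verts : Set V)).ConnectedComponent

open Classical in
/-- The FK-Ising weight (`q = 2`, free boundary conditions) of the configuration on `H` with
open edges `S ⊆ E_H`. -/
noncomputable def fkWeight {G : SimpleGraph V} (p : ℝ) (H : FinSub G) (S : Finset (Sym2 V)) : ℝ :=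
  p ^ S.card * (1 - p) ^ (H.edges \ S).card * 2 ^ numComp H S

open Classical in
/-- The configuration on `G` with open edges `S` (the edges outside `H` are closed). -/
noncomputable def confOf (G : SimpleGraph V) (S : Finset (Sym2 V)) : Conf G :=
  fun e => decide (e.1 ∈ S)

/-- The expectation of `f` under the FK-Ising measure on `H` with free boundary conditions. -/
noncomputable def fkExp {G : SimpleGraph V} (p : ℝ) (H : FinSub G) (f : Conf G → ℝ) : ℝ :=
  (∑ S ∈ H.edges.powerset, fkWeight p H S * f (confOf G S)) /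
    ∑ S ∈ H.edges.powerset, fkWeight p H S

/-- An exhaustion of `G` by finite subgraphs. -/
def Exhausts {G : SimpleGraph V} (H : ℕ → FinSub G) : Prop :=
  (∀ k, (H k).verts ⊆ (H (k + 1)).verts ∧ (H k).edges ⊆ (H (k + 1)).edges) ∧
  (∀ v : V, ∃ k, v ∈ (H k).verts) ∧ (∀ e ∈ G.edgeSet, ∃ k, e ∈ (H k).edges)

/-- `μ` is the weak limit of the free FK-Ising measures at `p` along an exhaustion of `G` by
finite subgraphs (bounded continuous test functions on the compact space of configurations). -/
def IsFreeFKIsing (G : SimpleGraph V) (p : ℝ) (μ : Measure (Conf G)) : Prop :=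
  IsProbabilityMeasure μ ∧ ∃ H : ℕ → FinSub G, Exhausts H ∧
    ∀ f : Conf G → ℝ, Continuous f →
      Tendsto (fun k => fkExp p (H k) f) atTop (𝓝 (∫ ω, f ω ∂μ))

/-- The configuration `ω` has an infinite cluster. -/
def HasInfiniteCluster (G : SimpleGraph V) (ω : Conf G) : Prop :=
  ∃ C : (openGraph G ω).ConnectedComponent, C.supp.Infinite

/-- The critical probability `p_c(G)` of FK-Ising on `G`. -/
noncomputable def criticalP (G : SimpleGraph V) : ℝ :=
  sInf {p : ℝ | 0 ≤ p ∧ p ≤ 1 ∧ ∃ μ : Measure (Conf G), IsFreeFKIsing G p μ ∧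
    0 < μ {ω | HasInfiniteCluster G ω}}

end Pool.Agent.Q290.AH
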