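import Pool.Agent.Q290.AH.Graph

/-! Deterministic part: good wheels produce fat triangles. -/

namespace Pool.Agent.Q290.AH

open Vx

/-- The wheel `(n, j)` is good: exactly its rim is open. -/
def Good (ω : Conf GG) (n : ℕ) (j : Fin (NN n)) : Prop :=
  ∀ e : GG.edgeSet, (∃ t, r n j t ∈ e.1) → (ω e = true ↔ h n j ∉ e.1)

lemma open_adj {ω : Conf GG} {x y : Vx} :
    (openGraph GG ω).Adj x y ↔ ∃ h : GG.Adj x y, ω ⟨s(x, y), h⟩ = true := by
  unfold openGraph
  rw [SimpleGraph.fromEdgeSet_adj]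
  constructor
  · rintro ⟨⟨h1, h2⟩, _⟩
    exact ⟨h1, h2⟩
  · rintro ⟨h1, h2⟩
    exact ⟨⟨h1, h2⟩, h1.ne⟩

/-- Position on the cycle of the wheel `(n, j)`. -/
def P (n : ℕ) (j : Fin (NN n)) (i : ℕ) : Vx :=
  if hi : 1 ≤ i ∧ i ≤ LL n then r n j ⟨i - 1, by omega⟩ else c n

lemma P_zero (n : ℕ) (j : Fin (NN n)) : P n j 0 = c n := by simp [P]

lemma P_rim (n : ℕ) (j : Fin (NN n)) (t : Fin (LL n)) : P n j (t.1 + 1) = r n j t := by
  have := t.2
  unfold P
  rw [dif_pos ⟨by omega, by omega⟩]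
  rfl

lemma P_last (n : ℕ) (j : Fin (NN n)) : P n j (LL n + 1) = c n := by
  unfold P
  rw [dif_neg (by omega)]

lemma good_open {ω : Conf GG} {n : ℕ} {j : Fin (NN n)} (hg : Good ω n j) {i : ℕ}
    (hi : i ≤ LL n) : (openGraph GG ω).Adj (P n j i) (P n j (i + 1)) := by
  rw [open_adj]
  have hL := LL_pos n
  rcases Nat.eq_zero_or_pos i with rfl | hpos
  · rw [P_zero]
    have h1 : P n j (0 + 1) = r n j ⟨0, hL⟩ := P_rim n j ⟨0, hL⟩
    rw [h1]
    refine ⟨adj_c_r n j _ (Or.inl rfl), ?_⟩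
    rw [hg _ ⟨⟨0, hL⟩, by simp⟩]
    simp
  · rcases Nat.lt_or_ge i (LL n) with h | h
    · have h1 : P n j i = r n j ⟨i - 1, by omega⟩ := by
        have := P_rim n j ⟨i - 1, by omega⟩
        simpa [Nat.sub_add_cancel hpos] using this
      have h2 : P n j (i + 1) = r n j ⟨i, h⟩ := P_rim n j ⟨i, h⟩
      rw [h1, h2]
      refine ⟨adj_r_r n j _ _ (by simp only; omega), ?_⟩
      rw [hg _ ⟨⟨i, h⟩, by simp⟩]
      simp
    · have hiL : i = LL n := le_antisymm hi h
      subst hiL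
      have h1 : P n j (LL n) = r n j ⟨LL n - 1, by omega⟩ := by
        have := P_rim n j ⟨LL n - 1, by omega⟩
        simpa [Nat.sub_add_cancel hpos] using this
      rw [h1, P_last]
      refine ⟨(adj_c_r n j _ (Or.inr (by simp only; omega))).symm, ?_⟩
      rw [hg _ ⟨⟨LL n - 1, by omega⟩, by simp⟩]
      simp

section Cluster

variable {ω : Conf GG} {C : (openGraph GG ω).ConnectedComponent}

lemma toSG_adj {x y : C} : C.toSimpleGraph.Adj x y ↔ (openGraph GG ω).Adj x.1 y.1 := by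
  simp [SimpleGraph.ConnectedComponent.toSimpleGraph]

/-- index on the wheel -/
def idx : Vx → ℕ
  | r _ _ t => t.1 + 1
  | _ => 0

open Classical in
/-- The glued function. -/
noncomputable def Phi (n : ℕ) (j : Fin (NN n)) (F : ℕ → ℤ) (g : C → ℤ) (x : C) : ℤ :=
  if ∃ t, x.1 = r n j t then F (idx x.1) else g x

lemma Phi_rim {n : ℕ} {j : Fin (NN n)} {F : ℕ → ℤ} {g : C → ℤ} {x : C} {t : Fin (LL n)}
    (hx : x.1 = r n j t) : Phi n j F g x = F (t.1 + 1) := by
  unfold Phi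
  rw [if_pos ⟨t, hx⟩, hx]
  rfl

lemma Phi_out {n : ℕ} {j : Fin (NN n)} {F : ℕ → ℤ} {g : C → ℤ} {x : C}
    (hx : ¬ ∃ t, x.1 = r n j t) : Phi n j F g x = g x := by
  unfold Phi
  rw [if_neg hx]

lemma Phi_half {n : ℕ} {j : Fin (NN n)} (hg : Good ω n j) (hc : c n ∈ C.supp)
    {F : ℕ → ℤ} {g : C → ℤ}
    (hF : ∀ i ≤ LL n, |F i - F (i + 1)| ≤ 1) (hF0 : F 0 = g ⟨c n, hc⟩)
    (hF1 : F (LL n + 1) = g ⟨c n, hc⟩) {x y : C} (hxy : C.toSimpleGraph.Adj x y)
    {t : Fin (LL n)} (hx : x.1 = r n j t) : |Phi n j F g x - Phi n j F g y| ≤ 1 := by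
  rw [toSG_adj, open_adj] at hxy
  obtain ⟨hadj, hop⟩ := hxy
  rw [Phi_rim hx]
  have hadj' : GG.Adj (r n j t) y.1 := hx ▸ hadj
  have ht2 := t.2
  rcases adj_r_cases hadj' with ⟨h1, h2⟩ | h1 | ⟨s, h1, h2⟩
  · have hny : ¬ ∃ t, y.1 = r n j t := by
      rintro ⟨t', ht'⟩
      rw [h1] at ht'
      exact absurd ht' (by simp)
    have hy : y = ⟨c n, hc⟩ := Subtype.ext h1
    rw [Phi_out hny, hy]
    rcases h2 with h2 | h2
    · rw [h2, ← hF0, abs_sub_comm]
      exact hF 0 (by omega)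
    · rw [h2, ← hF1]
      exact hF (LL n) le_rfl
  · exfalso
    have := (hg ⟨s(x.1, y.1), hadj⟩ ⟨t, by simp [hx]⟩).1 hop
    apply this
    simp [h1]
  · rw [Phi_rim h1]
    rcases h2 with h2 | h2
    · rw [← h2]
      exact hF (t.1 + 1) (by omega)
    · rw [← h2, abs_sub_comm]
      exact hF (s.1 + 1) (by have := s.2; omega)

lemma Phi_lip {n : ℕ} {j : Fin (NN n)} (hg : Good ω n j) (hc : c n ∈ C.supp)
    {F : ℕ → ℤ} {g : C → ℤ} (hgl : ∀ x y, C.toSimpleGraph.Adj x y → |g x - g y| ≤ 1)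
    (hF : ∀ i ≤ LL n, |F i - F (i + 1)| ≤ 1) (hF0 : F 0 = g ⟨c n, hc⟩)
    (hF1 : F (LL n + 1) = g ⟨c n, hc⟩) (x y : C) (hxy : C.toSimpleGraph.Adj x y) :
    |Phi n j F g x - Phi n j F g y| ≤ 1 := by
  by_cases hx : ∃ t, x.1 = r n j t
  · obtain ⟨t, ht⟩ := hx
    exact Phi_half hg hc hF hF0 hF1 hxy ht
  · by_cases hy : ∃ t, y.1 = r n j t
    · obtain ⟨t, ht⟩ := hy
      rw [abs_sub_comm]
      exact Phi_half hg hc hF hF0 hF1 hxy.symm ht
    · rw [Phi_out hx, Phi_out hy]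
      exact hgl x y hxy

/-- A walk along a path of vertices. -/
lemma path_walk {W : Type*} {Γ : SimpleGraph W} (Q : ℕ → W) (a m : ℕ)
    (h : ∀ i, a ≤ i → i < a + m → Γ.Adj (Q i) (Q (i + 1))) :
    ∃ w : Γ.Walk (Q a) (Q (a + m)), w.length = m ∧ ∀ i ≤ m, Q (a + i) ∈ w.support := by
  induction m with
  | zero => exact ⟨SimpleGraph.Walk.nil, by simp, fun i hi => by
      have : i = 0 := by omega
      subst this
      simp⟩
  | succ m ih =>
    obtain ⟨w, hw1, hw2⟩ := ih fun i hi hi' => h i hi (by omega)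
    refine ⟨w.concat (h (a + m) (by omega) (by omega)), ?_, ?_⟩
    · rw [SimpleGraph.Walk.length_concat, hw1]
    · intro i hi
      rw [SimpleGraph.Walk.support_concat]
      simp only [List.mem_append, List.mem_singleton]
      rcases Nat.lt_or_ge i (m + 1) with h1 | h1
      · exact Or.inl (hw2 i (by omega))
      · right
        have : i = m + 1 := by omega
        rw [this]

theorem not_anchored (n1 : ℕ) (hc : ∀ n, n1 ≤ n → c n ∈ C.supp)
    (hgood : ∀ n, n1 ≤ n → ∃ j, Good ω n j) : ¬ AnchoredHyperbolic C.toSimpleGraph := by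
  intro hA
  obtain ⟨δ, hδ⟩ := hA ⟨c n1, hc n1 le_rfl⟩
  set n := max n1 δ with hn
  have hn1 : n1 ≤ n := le_max_left _ _
  have hn2 : δ ≤ n := le_max_right _ _
  obtain ⟨j, hj⟩ := hgood n hn1
  have hcn := hc n hn1
  set Γ := C.toSimpleGraph with hΓ
  set v : C := ⟨c n1, hc n1 le_rfl⟩ with hv
  set k := n + 1 with hk
  have hLL : LL n + 1 = 4 * k := by unfold LL; omega
  have hcon : Γ.Connected := SimpleGraph.ConnectedComponent.connected_toSimpleGraph C
  -- all positions belong to the cluster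
  have hP : ∀ i, i ≤ LL n + 1 → P n j i ∈ C.supp := by
    intro i
    induction i with
    | zero => intro _; rw [P_zero]; exact hcn
    | succ i ih =>
      intro hi
      have h1 := ih (by omega)
      have h2 := good_open hj (i := i) (by omega)
      rw [SimpleGraph.ConnectedComponent.mem_supp_iff] at h1 ⊢
      rw [← h1]
      exact SimpleGraph.ConnectedComponent.sound h2.reachable.symm
  set Q : ℕ → C := fun i => if hi : i ≤ LL n + 1 then ⟨P n j i, hP i hi⟩ else v with hQ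
  have hQv : ∀ i, i ≤ LL n + 1 → (Q i).1 = P n j i := by
    intro i hi
    simp only [hQ, dif_pos hi]
  have hQadj : ∀ i, i ≤ LL n → Γ.Adj (Q i) (Q (i + 1)) := by
    intro i hi
    rw [hΓ, toSG_adj, hQv i (by omega), hQv (i + 1) (by omega)]
    exact good_open hj hi
  have hQrim : ∀ i, 1 ≤ i → i ≤ LL n → ∃ t : Fin (LL n), (Q i).1 = r n j t ∧ t.1 + 1 = i := by
    intro i h1 h2
    refine ⟨⟨i - 1, by omega⟩, ?_, by simp only; omega⟩
    rw [hQv i (by omega)]
    unfold P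
    rw [dif_pos ⟨h1, h2⟩]
  have hQ0 : Q 0 = ⟨c n, hcn⟩ := Subtype.ext (by rw [hQv 0 (by omega), P_zero])
  have hQL : Q (LL n + 1) = ⟨c n, hcn⟩ := Subtype.ext (by rw [hQv _ le_rfl, P_last])
  have hvout : ¬ ∃ t, v.1 = r n j t := by
    rintro ⟨t, ht⟩
    exact absurd ht (by simp [hv])
  -- function (a)
  have hA1 : ∀ x : C, Phi n j (fun i => (Γ.dist v ⟨c n, hcn⟩ : ℤ) + min (i : ℤ) (4 * k - i))
      (fun y => (Γ.dist v y : ℤ)) x ≤ Γ.dist v x := by
    intro x
    have h1 := lip_dist (Γ := Γ) (f := Phi n j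
      (fun i => (Γ.dist v ⟨c n, hcn⟩ : ℤ) + min (i : ℤ) (4 * k - i))
      (fun y => (Γ.dist v y : ℤ))) (fun x y hxy => Phi_lip hj hcn ?_ ?_ ?_ ?_ x y hxy)
      (hcon.preconnected v x)
    · rw [Phi_out hvout] at h1
      simp only [SimpleGraph.dist_self] at h1
      rw [abs_le] at h1
      have := h1.1
      push_cast at this
      linarith
    · intro x y hxy
      have h2 := hcon.dist_triangle (u := v) (v := x) (w := y)
      have h3 := hcon.dist_triangle (u := v) (v := y) (w := x)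
      rw [SimpleGraph.dist_eq_one_iff_adj.2 hxy] at h2
      rw [SimpleGraph.dist_eq_one_iff_adj.2 hxy.symm] at h3
      rw [abs_le]
      constructor <;> omega
    · intro i hi
      rw [abs_le]
      push_cast
      constructor <;> omega
    · simp
    · omega
  -- function (b)
  have hB1 : ∀ x : C, Phi n j (fun i => |(i : ℤ) - 2 * k|) (fun _ => 2 * (k : ℤ)) x ≤
      Γ.dist (Q (2 * k)) x := by
    intro x
    have h1 := lip_dist (Γ := Γ) (f := Phi n j
      (fun i => |(i : ℤ) - 2 * k|) (fun _ => 2 * (k : ℤ)))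
      (fun x y hxy => Phi_lip hj hcn ?_ ?_ ?_ ?_ x y hxy)
      (hcon.preconnected (Q (2 * k)) x)
    · obtain ⟨t, ht, ht2⟩ := hQrim (2 * k) (by omega) (by omega)
      rw [Phi_rim ht, ht2] at h1
      have h2 : |((2 * k : ℕ) : ℤ) - 2 * k| = 0 := by push_cast; simp
      simp only [h2] at h1
      rw [abs_le] at h1
      linarith [h1.1]
    · intro x y hxy
      simp
    · intro i hi
      have h2 := abs_cases ((i : ℤ) - 2 * k)
      have h3 := abs_cases (((i + 1 : ℕ) : ℤ) - 2 * k)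
      rw [abs_le]
      push_cast at *
      constructor <;> omega
    · simp
    · have : ((LL n + 1 : ℕ) : ℤ) - 2 * k = 2 * k := by rw [hLL]; push_cast; ring
      simp only [this]
      rw [abs_of_nonneg (by positivity)]
  -- function (c)
  have hC1 : 2 * (k : ℤ) ≤ Γ.dist (Q k) (Q (3 * k)) := by
    have h1 := lip_dist (Γ := Γ) (f := Phi n j
      (fun i => min |(i : ℤ) - k| (4 * k - |(i : ℤ) - k|)) (fun _ => (k : ℤ)))
      (fun x y hxy => Phi_lip hj hcn ?_ ?_ ?_ ?_ x y hxy)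
      (hcon.preconnected (Q k) (Q (3 * k)))
    · obtain ⟨t, ht, ht2⟩ := hQrim k (by omega) (by omega)
      obtain ⟨s, hs, hs2⟩ := hQrim (3 * k) (by omega) (by omega)
      rw [Phi_rim ht, ht2, Phi_rim hs, hs2] at h1
      have h2 : |((3 * k : ℕ) : ℤ) - k| = 2 * k := by
        push_cast
        rw [abs_of_nonneg (by linarith)]
        ring
      simp only [h2, sub_self, abs_zero] at h1
      rw [abs_le] at h1
      have := h1.1
      omega
    · intro x y hxy
      simp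
    · intro i hi
      have h2 := abs_cases ((i : ℤ) - k)
      have h3 := abs_cases (((i + 1 : ℕ) : ℤ) - k)
      rw [abs_le]
      push_cast at *
      constructor <;> omega
    · simp only [Nat.cast_zero, zero_sub, abs_neg]
      rw [abs_of_nonneg (by positivity)]
      omega
    · have : ((LL n + 1 : ℕ) : ℤ) - k = 3 * k := by rw [hLL]; push_cast; ring
      simp only [this]
      rw [abs_of_nonneg (by positivity)]
      omega
  -- the sides
  obtain ⟨w1, hw1⟩ := (hcon.preconnected v (Q k)).exists_walk_length_eq_dist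
  obtain ⟨w3, hw3⟩ := (hcon.preconnected (Q (3 * k)) v).exists_walk_length_eq_dist
  have he3 : k + 2 * k = 3 * k := by ring
  have hex : ∃ w : Γ.Walk (Q k) (Q (3 * k)), w.length = 2 * k ∧
      ∀ i ≤ 2 * k, Q (k + i) ∈ w.support := by
    have := path_walk (Γ := Γ) Q k (2 * k) (fun i _ hi => hQadj i (by omega))
    rwa [he3] at this
  obtain ⟨w2, hw2, hw2'⟩ := hex
  have hg2 : IsGeod Γ w2 := by
    unfold IsGeod
    have h1 := SimpleGraph.dist_le w2
    omega
  have hmem : Q (2 * k) ∈ w2.support := by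
    have := hw2' k (by omega)
    rwa [show k + k = 2 * k by ring] at this
  have hthin := hδ v (Q k) (Q (3 * k)) w1 w2 w3 hw1 hg2 hw3 (Or.inl w1.start_mem_support)
  obtain ⟨w, hw, hwd⟩ := hthin.2.1 (Q (2 * k)) hmem
  -- upper bounds for the corners
  have hdq : ∀ a b, a ≤ b → b ≤ LL n + 1 → Γ.dist (Q a) (Q b) ≤ b - a := by
    intro a b hab hb
    obtain ⟨d, rfl⟩ := Nat.exists_eq_add_of_le hab
    obtain ⟨q, hq, _⟩ := path_walk (Γ := Γ) Q a d (fun i _ hi => hQadj i (by omega))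
    have h1 := SimpleGraph.dist_le q
    omega
  have hup1 : Γ.dist v (Q k) ≤ Γ.dist v ⟨c n, hcn⟩ + k := by
    have h1 := hdq 0 k (by omega) (by omega)
    have h2 := hcon.dist_triangle (u := v) (v := ⟨c n, hcn⟩) (w := Q k)
    rw [hQ0] at h1
    omega
  have hup3 : Γ.dist v (Q (3 * k)) ≤ Γ.dist v ⟨c n, hcn⟩ + k := by
    have h1 := hdq (3 * k) (LL n + 1) (by omega) le_rfl
    have h2 := hcon.dist_triangle (u := v) (v := ⟨c n, hcn⟩) (w := Q (3 * k))
    rw [hQL, SimpleGraph.dist_comm] at h1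
    omega
  -- the point `w`
  have hdw : Γ.dist v w ≤ Γ.dist v ⟨c n, hcn⟩ + k := by
    rcases hw with hw | hw
    · have := geod_add w1 hw1 hw
      omega
    · have := geod_add w3 hw3 hw
      rw [SimpleGraph.dist_comm (u := w) (v := v),
        SimpleGraph.dist_comm (u := Q (3 * k)) (v := v)] at this
      omega
  have h5 := hB1 w
  have h6 := hA1 w
  by_cases hwr : ∃ t, w.1 = r n j t
  · obtain ⟨t, ht⟩ := hwr
    rw [Phi_rim ht] at h5 h6
    have h7 := abs_cases (((t.1 + 1 : ℕ) : ℤ) - 2 * k)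
    omega
  · rw [Phi_out hwr] at h5
    omega

end Cluster

end Pool.Agent.Q290.AH
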