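import Pool.Agent.Q290.AH.Inf

/-! Existence of the free FK-Ising measure on a countable graph (compactness). -/

open MeasureTheory Filter Topology

namespace Pool.Agent.Q290.AH

universe u

variable {V : Type u} {G : SimpleGraph V}

lemma exists_exhaustion [Countable V] : ∃ H : ℕ → FinSub G, Exhausts H := by
  classical
  obtain ⟨f, hf⟩ := Countable.exists_injective_nat V
  have hmem : ∀ k v, v ∈ (Finset.range k).preimage f hf.injOn ↔ f v < k := by
    intro k v
    simp
  refine ⟨fun k =>
    { verts := (Finset.range k).preimage f hf.injOn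
      edges := ((Finset.range k).preimage f hf.injOn).sym2.filter (· ∈ G.edgeSet)
      edges_sub := fun e he => (Finset.mem_filter.1 he).2
      ends := fun e he v hv => (Finset.mem_sym2_iff.1 (Finset.mem_filter.1 he).1) v hv },
    fun k => ⟨?_, ?_⟩, ?_, ?_⟩
  · intro v hv
    rw [hmem] at hv ⊢
    omega
  · intro e he
    simp only [Finset.mem_filter, Finset.mem_sym2_iff] at he ⊢
    refine ⟨fun a ha => ?_, he.2⟩
    have := he.1 a ha
    rw [hmem] at this ⊢
    omega
  · intro v
    refine ⟨f v + 1, ?_⟩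
    simp only
    rw [hmem]
    omega
  · intro e he
    induction e using Sym2.ind with
    | _ x y =>
    refine ⟨max (f x) (f y) + 1, ?_⟩
    simp only [Finset.mem_filter, Finset.mem_sym2_iff]
    refine ⟨fun a ha => ?_, he⟩
    rw [hmem]
    rcases Sym2.mem_iff.1 ha with rfl | rfl
    · have := le_max_left (f a) (f y)
      omega
    · have := le_max_right (f x) (f a)
      omega

/-- the finite volume measure -/
noncomputable def fkM (p : ℝ) (H : FinSub G) : Measure (Conf G) :=
  ∑ S ∈ H.edges.powerset,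
    ENNReal.ofReal (fkWeight p H S / ∑ T ∈ H.edges.powerset, fkWeight p H T) •
      Measure.dirac (confOf G S)

lemma fkM_prob {p : ℝ} (hp0 : 0 < p) (hp1 : p < 1) (H : FinSub G) :
    IsProbabilityMeasure (fkM p H) := by
  constructor
  unfold fkM
  rw [Measure.finset_sum_apply]
  simp only [Measure.smul_apply, measure_univ, smul_eq_mul, mul_one]
  rw [← ENNReal.ofReal_sum_of_nonneg, ← Finset.sum_div, div_self (Z_pos hp0 hp1 H).ne']
  · simp
  · intro S _
    exact div_nonneg (fkWeight_pos hp0 hp1 H S).le (Z_pos hp0 hp1 H).le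

lemma integral_fkM [Countable V] {p : ℝ} (hp0 : 0 < p) (hp1 : p < 1) (H : FinSub G)
    (f : Conf G → ℝ) (hf : Continuous f) : ∫ ω, f ω ∂(fkM p H) = fkExp p H f := by
  unfold fkM fkExp
  rw [integral_finsetSum_measure]
  · rw [Finset.sum_div]
    apply Finset.sum_congr rfl
    intro S _
    rw [integral_smul_measure, integral_dirac, ENNReal.toReal_ofReal
      (div_nonneg (fkWeight_pos hp0 hp1 H S).le (Z_pos hp0 hp1 H).le)]
    simp only [smul_eq_mul]
    ring
  · intro S _
    apply Integrable.smul_measure _ (by simp)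
    exact integrable_dirac (by simp)

lemma exists_free [Countable V] {p : ℝ} (hp0 : 0 < p) (hp1 : p < 1) :
    ∃ μ : Measure (Conf G), IsFreeFKIsing G p μ := by
  obtain ⟨H, hH⟩ := exists_exhaustion (G := G)
  let X : ℕ → ProbabilityMeasure (Conf G) := fun k => ⟨fkM p (H k), fkM_prob hp0 hp1 (H k)⟩
  obtain ⟨μ, φ, hφ, hlim⟩ := CompactSpace.tendsto_subseq X
  refine ⟨μ, inferInstance, fun k => H (φ k), ⟨?_, ?_, ?_⟩, ?_⟩
  · intro k
    have h1 : Monotone (fun k => (H k).verts) := monotone_nat_of_le_succ fun k => (hH.1 k).1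
    have h2 : Monotone (fun k => (H k).edges) := monotone_nat_of_le_succ fun k => (hH.1 k).2
    exact ⟨h1 (hφ.monotone (Nat.le_succ k)), h2 (hφ.monotone (Nat.le_succ k))⟩
  · intro v
    obtain ⟨k, hk⟩ := hH.2.1 v
    have h1 : Monotone (fun k => (H k).verts) := monotone_nat_of_le_succ fun k => (hH.1 k).1
    exact ⟨k, h1 (hφ.id_le k) hk⟩
  · intro e he
    obtain ⟨k, hk⟩ := hH.2.2 e he
    have h2 : Monotone (fun k => (H k).edges) := monotone_nat_of_le_succ fun k => (hH.1 k).2
    exact ⟨k, h2 (hφ.id_le k) hk⟩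
  · intro f hf
    have h := ProbabilityMeasure.tendsto_iff_forall_integral_tendsto.1 hlim
      (BoundedContinuousFunction.mkOfCompact ⟨f, hf⟩)
    simp only [BoundedContinuousFunction.mkOfCompact_apply, ContinuousMap.coe_mk] at h
    refine h.congr fun k => ?_
    exact integral_fkM hp0 hp1 (H (φ k)) f hf

end Pool.Agent.Q290.AH
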