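import Pool.Agent.Q290.AH.Defs

/-! One-edge finite energy for the FK-Ising weights. -/

open MeasureTheory Filter Topology

namespace Pool.Agent.Q290.AH

universe u

variable {V : Type u}

section Comp

variable {W : Type u}

lemma reach_split {Γ Γ' : SimpleGraph W} {x y : W}
    (h : ∀ a b, Γ'.Adj a b → Γ.Adj a b ∨ ((a = x ∧ b = y) ∨ (a = y ∧ b = x)))
    {c d : W} (hcd : Γ'.Reachable c d) :
    Γ.Reachable c d ∨ ((Γ.Reachable c x ∨ Γ.Reachable c y) ∧
      (Γ.Reachable d x ∨ Γ.Reachable d y)) := by
  obtain ⟨p⟩ := hcd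
  induction p with
  | nil => exact Or.inl (SimpleGraph.Reachable.refl _)
  | @cons a b d hab q ih =>
    rcases h a b hab with h1 | ⟨rfl, rfl⟩ | ⟨rfl, rfl⟩
    · have hr : Γ.Reachable a b := h1.reachable
      rcases ih with ih | ⟨ih1, ih2⟩
      · exact Or.inl (hr.trans ih)
      · refine Or.inr ⟨?_, ih2⟩
        rcases ih1 with ih1 | ih1
        · exact Or.inl (hr.trans ih1)
        · exact Or.inr (hr.trans ih1)
    · refine Or.inr ⟨Or.inl (SimpleGraph.Reachable.refl _), ?_⟩
      rcases ih with ih | ⟨ih1, ih2⟩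
      · exact Or.inr ih.symm
      · exact ih2
    · refine Or.inr ⟨Or.inr (SimpleGraph.Reachable.refl _), ?_⟩
      rcases ih with ih | ⟨ih1, ih2⟩
      · exact Or.inl ih.symm
      · exact ih2

lemma card_comp_le_succ [Finite W] {Γ Γ' : SimpleGraph W} {x y : W}
    (h : ∀ a b, Γ'.Adj a b → Γ.Adj a b ∨ ((a = x ∧ b = y) ∨ (a = y ∧ b = x)))
    (hle : Γ ≤ Γ') :
    Nat.card Γ.ConnectedComponent ≤ Nat.card Γ'.ConnectedComponent + 1 := by
  classical
  have hinj : Function.Injective (fun C : Γ.ConnectedComponent =>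
      if C = Γ.connectedComponentMk x then (none : Option Γ'.ConnectedComponent)
      else some (C.map (SimpleGraph.Hom.ofLE hle))) := by
    intro C D hCD
    simp only at hCD
    by_cases hC : C = Γ.connectedComponentMk x
    · by_cases hD : D = Γ.connectedComponentMk x
      · rw [hC, hD]
      · rw [if_pos hC, if_neg hD] at hCD
        exact absurd hCD (by simp)
    · by_cases hD : D = Γ.connectedComponentMk x
      · rw [if_neg hC, if_pos hD] at hCD
        exact absurd hCD (by simp)
      · rw [if_neg hC, if_neg hD] at hCD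
        have h2 := Option.some.inj hCD
        induction C using SimpleGraph.ConnectedComponent.ind with
        | _ c =>
        induction D using SimpleGraph.ConnectedComponent.ind with
        | _ d =>
        simp only [SimpleGraph.ConnectedComponent.map_mk, SimpleGraph.ConnectedComponent.eq] at h2
        have h3 : Γ'.Reachable c d := h2
        rw [SimpleGraph.ConnectedComponent.eq] at hC hD ⊢
        rcases reach_split h h3 with h4 | ⟨h4, h5⟩
        · exact h4
        · exact (h4.resolve_left hC).trans (h5.resolve_left hD).symm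
  have := Nat.card_le_card_of_injective _ hinj
  have hf : Finite Γ'.ConnectedComponent := inferInstance
  rw [Finite.card_option] at this
  exact this

end Comp

variable {G : SimpleGraph V}

lemma numComp_insert_le (H : FinSub G) (S : Finset (Sym2 V)) [DecidableEq (Sym2 V)]
    (e : Sym2 V) : numComp H (insert e S) ≤ numComp H S := by
  have : Finite ((H.verts : Set V) : Type u) := H.verts.finite_toSet.to_subtype
  unfold numComp
  apply SimpleGraph.ConnectedComponent.card_le_card_of_le
  intro a b hab
  simp only [SimpleGraph.comap_adj, SimpleGraph.fromEdgeSet_adj, Function.Embedding.subtype_apply,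
    Finset.coe_insert, Set.mem_insert_iff, Finset.mem_coe] at hab ⊢
  exact ⟨Or.inr hab.1, hab.2⟩

lemma numComp_le_insert (H : FinSub G) (S : Finset (Sym2 V)) [DecidableEq (Sym2 V)]
    (e : Sym2 V) (he : e ∈ H.edges) :
    numComp H S ≤ numComp H (insert e S) + 1 := by
  have : Finite ((H.verts : Set V) : Type u) := H.verts.finite_toSet.to_subtype
  induction e using Sym2.ind with
  | _ x y =>
  have hx : x ∈ (H.verts : Set V) := H.ends _ he x (by simp)
  have hy : y ∈ (H.verts : Set V) := H.ends _ he y (by simp)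
  unfold numComp
  apply card_comp_le_succ (x := ⟨x, hx⟩) (y := ⟨y, hy⟩)
  · rintro ⟨a, ha⟩ ⟨b, hb⟩ hab
    simp only [SimpleGraph.comap_adj, SimpleGraph.fromEdgeSet_adj,
      Function.Embedding.subtype_apply,
      Finset.coe_insert, Set.mem_insert_iff, Finset.mem_coe, Subtype.mk.injEq,
      Sym2.eq_iff] at hab ⊢
    rcases hab with ⟨h1 | h1, h2⟩
    · exact Or.inr h1
    · exact Or.inl ⟨h1, h2⟩
  · intro a b hab
    simp only [SimpleGraph.comap_adj, SimpleGraph.fromEdgeSet_adj,
      Function.Embedding.subtype_apply,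
      Finset.coe_insert, Set.mem_insert_iff, Finset.mem_coe] at hab ⊢
    exact ⟨Or.inr hab.1, hab.2⟩

lemma fkWeight_nonneg {p : ℝ} (hp0 : 0 ≤ p) (hp1 : p ≤ 1) (H : FinSub G)
    (S : Finset (Sym2 V)) : 0 ≤ fkWeight p H S := by
  unfold fkWeight
  have : 0 ≤ 1 - p := by linarith
  positivity

open Classical in
lemma fkWeight_pos {p : ℝ} (hp0 : 0 < p) (hp1 : p < 1) (H : FinSub G)
    (S : Finset (Sym2 V)) : 0 < fkWeight p H S := by
  unfold fkWeight
  have : 0 < 1 - p := by linarith
  positivity

open Classical in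
/-- The two weight comparisons. -/
lemma fkWeight_compare {p : ℝ} (hp0 : 0 < p) (hp1 : p < 1) (H : FinSub G)
    {S : Finset (Sym2 V)} {e : Sym2 V} (he : e ∈ H.edges) (hS : S ⊆ H.edges.erase e) :
    p * fkWeight p H S ≤ 2 * (1 - p) * fkWeight p H (insert e S) ∧
    (1 - p) * fkWeight p H (insert e S) ≤ p * fkWeight p H S := by
  have heS : e ∉ S := fun h => by simpa using hS h
  have hc : (insert e S).card = S.card + 1 := Finset.card_insert_of_notMem heS
  have hd : (H.edges \ S).card = (H.edges \ (insert e S)).card + 1 := by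
    have : H.edges \ S = insert e (H.edges \ insert e S) := by
      ext x
      simp only [Finset.mem_sdiff, Finset.mem_insert, not_or]
      constructor
      · rintro ⟨h1, h2⟩
        by_cases hx : x = e
        · exact Or.inl hx
        · exact Or.inr ⟨h1, hx, h2⟩
      · rintro (rfl | ⟨h1, _, h2⟩)
        · exact ⟨he, heS⟩
        · exact ⟨h1, h2⟩
    rw [this, Finset.card_insert_of_notMem (by simp)]
  have h1 := numComp_insert_le H S e
  have h2 := numComp_le_insert H S e he
  have hq : 0 < 1 - p := by linarith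
  unfold fkWeight
  rw [hc, hd, pow_succ, pow_succ]
  set A := p ^ S.card with hA
  set B := (1 - p) ^ (H.edges \ insert e S).card with hB
  have hA0 : 0 < A := by positivity
  have hB0 : 0 < B := by positivity
  have h3 : (2 : ℝ) ^ numComp H S ≤ 2 * 2 ^ numComp H (insert e S) := by
    rw [← pow_succ']
    exact pow_le_pow_right₀ (by norm_num) h2
  have h4 : (2 : ℝ) ^ numComp H (insert e S) ≤ 2 ^ numComp H S :=
    pow_le_pow_right₀ (by norm_num) h1
  constructor
  · have : 0 < p * A * B * (1 - p) := by positivity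
    nlinarith [mul_le_mul_of_nonneg_left h3 this.le]
  · have : 0 < p * A * B * (1 - p) := by positivity
    nlinarith [mul_le_mul_of_nonneg_left h4 this.le]

/-- the finite energy constant -/
noncomputable def eps (p : ℝ) : ℝ := p * (1 - p) / 2

lemma eps_pos {p : ℝ} (hp0 : 0 < p) (hp1 : p < 1) : 0 < eps p := by
  unfold eps
  have : 0 < 1 - p := by linarith
  positivity

lemma eps_lt_one {p : ℝ} (hp0 : 0 < p) (hp1 : p < 1) : eps p < 1 := by
  unfold eps
  nlinarith

open Classical in
lemma fkWeight_energy {p : ℝ} (hp0 : 0 < p) (hp1 : p < 1) (H : FinSub G)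
    {S : Finset (Sym2 V)} {e : Sym2 V} (he : e ∈ H.edges) (hS : S ⊆ H.edges.erase e) :
    eps p * (fkWeight p H S + fkWeight p H (insert e S)) ≤ fkWeight p H (insert e S) ∧
    eps p * (fkWeight p H S + fkWeight p H (insert e S)) ≤ fkWeight p H S := by
  obtain ⟨h1, h2⟩ := fkWeight_compare hp0 hp1 H he hS
  have ha := fkWeight_pos hp0 hp1 H S
  have hb := fkWeight_pos hp0 hp1 H (insert e S)
  have hq : 0 < 1 - p := by linarith
  unfold eps
  set a := fkWeight p H S
  set b := fkWeight p H (insert e S)
  constructor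
  · have h3 : p * (1 - p) / 2 * a ≤ (1 - p) * (1 - p) * b := by nlinarith
    have h4 : p * (1 - p) / 2 * b + (1 - p) * (1 - p) * b ≤ b := by
      have : p * (1 - p) / 2 + (1 - p) * (1 - p) ≤ 1 := by nlinarith
      nlinarith
    nlinarith
  · have h3 : p * (1 - p) / 2 * b ≤ p / 2 * (p * a) := by nlinarith
    have h4 : p * (1 - p) / 2 * a + p / 2 * (p * a) ≤ a := by
      have : p * (1 - p) / 2 + p / 2 * p ≤ 1 := by nlinarith
      nlinarith
    nlinarith

open Classical in
lemma confOf_apply (S : Finset (Sym2 V)) (e : G.edgeSet) :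
    confOf G S e = decide (e.1 ∈ S) := rfl

open Classical in
lemma confOf_insert (S : Finset (Sym2 V)) (e : G.edgeSet) :
    confOf G (insert e.1 S) = Function.update (confOf G S) e true := by
  funext f
  by_cases hf : f = e
  · subst hf
    simp [confOf]
  · rw [Function.update_of_ne hf]
    have : f.1 ≠ e.1 := fun h => hf (Subtype.ext h)
    simp [confOf, this]

open Classical in
lemma sum_split (H : FinSub G) {e : Sym2 V} (he : e ∈ H.edges) (g : Finset (Sym2 V) → ℝ) :
    ∑ S ∈ H.edges.powerset, g S =
      ∑ S ∈ (H.edges.erase e).powerset, (g S + g (insert e S)) := by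
  conv_lhs => rw [← Finset.insert_erase he]
  rw [Finset.sum_powerset_insert (Finset.notMem_erase e _), Finset.sum_add_distrib]

lemma Z_pos {p : ℝ} (hp0 : 0 < p) (hp1 : p < 1) (H : FinSub G) :
    0 < ∑ S ∈ H.edges.powerset, fkWeight p H S :=
  Finset.sum_pos (fun S _ => fkWeight_pos hp0 hp1 H S) ⟨∅, by simp⟩

open Classical in
/-- One-edge finite energy in finite volume. -/
lemma fkExp_energy {p : ℝ} (hp0 : 0 < p) (hp1 : p < 1) (H : FinSub G) (e : G.edgeSet)
    (he : e.1 ∈ H.edges) (f : Conf G → ℝ) (hf0 : ∀ ω, 0 ≤ f ω)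
    (hf : ∀ ω b, f (Function.update ω e b) = f ω) (b : Bool) :
    eps p * fkExp p H f ≤ fkExp p H (fun ω => if ω e = b then f ω else 0) := by
  unfold fkExp
  rw [← mul_div_assoc]
  apply div_le_div_of_nonneg_right _ (Z_pos hp0 hp1 H).le
  rw [sum_split H he, sum_split H he, Finset.mul_sum]
  apply Finset.sum_le_sum
  intro S hS
  have hS' : S ⊆ H.edges.erase e.1 := Finset.mem_powerset.1 hS
  have heS : e.1 ∉ S := fun h => by simpa using hS' h
  obtain ⟨h1, h2⟩ := fkWeight_energy hp0 hp1 H he hS'
  have h3 : f (confOf G (insert e.1 S)) = f (confOf G S) := by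
    rw [confOf_insert, hf]
  have h4 : confOf G S e = false := by simp [confOf, heS]
  have h5 : confOf G (insert e.1 S) e = true := by simp [confOf]
  have h6 := hf0 (confOf G S)
  beta_reduce
  rw [h3, h4, h5]
  cases b
  · simp only [if_true, Bool.true_eq_false, if_false, mul_zero, add_zero]
    nlinarith [mul_le_mul_of_nonneg_right h2 h6]
  · simp only [if_true, Bool.false_eq_true, if_false, mul_zero, zero_add]
    nlinarith [mul_le_mul_of_nonneg_right h1 h6]

end Pool.Agent.Q290.AH
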