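import Pool.Agent.Q290.AH.Defs

/-! The graph: a chain of wheels. -/

namespace Pool.Agent.Q290.AH

/-- Number of wheels at level `n`. -/
def NN (n : ℕ) : ℕ := (n + 1) ^ (n + 1)

/-- Number of rim vertices (besides `c n`) of a wheel at level `n`. -/
def LL (n : ℕ) : ℕ := 4 * n + 3

/-- Vertices: cut vertices `c n`, hubs `h n j` and rim vertices `r n j t`. -/
inductive Vx : Type
  | c (n : ℕ)
  | h (n : ℕ) (j : Fin (NN n))
  | r (n : ℕ) (j : Fin (NN n)) (t : Fin (LL n))

open Vx

/-- Half of the adjacency relation. -/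
def Rel : Vx → Vx → Prop
  | c n, h m _ => m = n ∨ n = m + 1
  | c n, r m _ t => m = n ∧ (t.1 = 0 ∨ t.1 + 1 = LL m)
  | h n j, r m i _ => n = m ∧ j.1 = i.1
  | r n j t, r m i s => n = m ∧ j.1 = i.1 ∧ t.1 + 1 = s.1
  | _, _ => False

/-- The graph. -/
def GG : SimpleGraph Vx := SimpleGraph.fromRel Rel

/-- The level of a vertex. -/
def lev : Vx → ℕ
  | c n => n
  | h n _ => n
  | r n _ _ => n

lemma GG_adj (x y : Vx) : GG.Adj x y ↔ x ≠ y ∧ (Rel x y ∨ Rel y x) := by
  simp [GG, SimpleGraph.fromRel_adj]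

lemma adj_c_h (n : ℕ) (j : Fin (NN n)) : GG.Adj (c n) (h n j) := by
  rw [GG_adj]; simp [Rel]

lemma adj_h_c (n : ℕ) (j : Fin (NN n)) : GG.Adj (h n j) (c (n + 1)) := by
  rw [GG_adj]; simp [Rel]

lemma adj_h_r (n : ℕ) (j : Fin (NN n)) (t : Fin (LL n)) : GG.Adj (h n j) (r n j t) := by
  rw [GG_adj]; simp [Rel]

lemma adj_c_r (n : ℕ) (j : Fin (NN n)) (t : Fin (LL n)) (ht : t.1 = 0 ∨ t.1 + 1 = LL n) :
    GG.Adj (c n) (r n j t) := by
  rw [GG_adj]; simp [Rel, ht]

lemma adj_r_r (n : ℕ) (j : Fin (NN n)) (t s : Fin (LL n)) (ht : t.1 + 1 = s.1) :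
    GG.Adj (r n j t) (r n j s) := by
  rw [GG_adj]
  refine ⟨?_, Or.inl ?_⟩
  · intro h
    simp only [Vx.r.injEq, heq_eq_eq, true_and] at h
    subst h
    omega
  · exact ⟨rfl, rfl, ht⟩

lemma NN_pos (n : ℕ) : 0 < NN n := by unfold NN; positivity

lemma LL_pos (n : ℕ) : 0 < LL n := by unfold LL; omega

/-- Neighbours of a rim vertex. -/
lemma adj_r_cases {n : ℕ} {j : Fin (NN n)} {t : Fin (LL n)} {y : Vx}
    (hy : GG.Adj (r n j t) y) :
    (y = c n ∧ (t.1 = 0 ∨ t.1 + 1 = LL n)) ∨ y = h n j ∨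
      ∃ s : Fin (LL n), y = r n j s ∧ (t.1 + 1 = s.1 ∨ s.1 + 1 = t.1) := by
  rw [GG_adj] at hy
  obtain ⟨_, hy⟩ := hy
  cases y with
  | c m =>
    simp only [Rel, false_or] at hy
    obtain ⟨rfl, h2⟩ := hy
    exact Or.inl ⟨rfl, h2⟩
  | h m i =>
    simp only [Rel, false_or] at hy
    obtain ⟨rfl, h2⟩ := hy
    right; left
    have : i = j := Fin.ext h2
    rw [this]
  | r m i s =>
    right; right
    simp only [Rel] at hy
    rcases hy with ⟨rfl, h2, h3⟩ | ⟨rfl, h2, h3⟩
    · have : j = i := Fin.ext h2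
      subst this
      exact ⟨s, rfl, Or.inl h3⟩
    · have : i = j := Fin.ext h2
      subst this
      exact ⟨s, rfl, Or.inr h3⟩

/-- Levels of adjacent vertices: going up one level means arriving at the cut vertex. -/
lemma adj_lev {x y : Vx} (h : GG.Adj x y) (hl : lev x < lev y) :
    y = c (lev x + 1) := by
  rw [GG_adj] at h
  obtain ⟨_, h⟩ := h
  cases x <;> cases y <;> simp only [Rel, lev, false_or, or_false] at h hl ⊢
  all_goals first | omega | skip
  all_goals simp only [Vx.c.injEq, reduceCtorEq]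
  all_goals omega

lemma infinite_Vx : Infinite Vx := Infinite.of_injective c fun a b h => by
  simpa using h

/-- A code of the vertices. -/
def code : Vx → ℕ × ℕ × ℕ × ℕ
  | c n => (0, n, 0, 0)
  | h n j => (1, n, j.1, 0)
  | r n j t => (2, n, j.1, t.1)

lemma code_inj : Function.Injective code := by
  intro x y hxy
  cases x <;> cases y <;> simp only [code, Prod.mk.injEq] at hxy
  all_goals first | (exfalso; omega) | skip
  · obtain ⟨_, rfl, _⟩ := hxy; rfl
  · obtain ⟨_, rfl, h2, _⟩ := hxy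
    rw [Fin.ext h2]
  · obtain ⟨_, rfl, h2, h3⟩ := hxy
    rw [Fin.ext h2, Fin.ext h3]

instance : Countable Vx := code_inj.countable

lemma finite_lev (m : ℕ) : {x : Vx | lev x ≤ m}.Finite := by
  have h1 : {x : Vx | lev x ≤ m} ⊆ (⋃ n ∈ Finset.range (m + 1), {c n}) ∪
      (⋃ n ∈ Finset.range (m + 1), Set.range (h n)) ∪
      (⋃ n ∈ Finset.range (m + 1), Set.range (fun q : Fin (NN n) × Fin (LL n) => r n q.1 q.2)) := by
    intro x hx
    simp only [Set.mem_ofPred_eq] at hx
    cases x with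
    | c n =>
      left; left
      simp only [Set.mem_iUnion]
      exact ⟨n, Finset.mem_range.2 (by simp only [lev] at hx; omega), rfl⟩
    | h n j =>
      left; right
      simp only [Set.mem_iUnion]
      exact ⟨n, Finset.mem_range.2 (by simp only [lev] at hx; omega), ⟨j, rfl⟩⟩
    | r n j t =>
      right
      simp only [Set.mem_iUnion]
      exact ⟨n, Finset.mem_range.2 (by simp only [lev] at hx; omega), ⟨(j, t), rfl⟩⟩
  refine Set.Finite.subset ?_ h1
  refine Set.Finite.union (Set.Finite.union ?_ ?_) ?_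
  · exact Set.Finite.biUnion (Finset.finite_toSet _) fun n _ => Set.finite_singleton _
  · exact Set.Finite.biUnion (Finset.finite_toSet _) fun n _ => Set.finite_range _
  · exact Set.Finite.biUnion (Finset.finite_toSet _) fun n _ => Set.finite_range _

lemma adj_lev_le {x y : Vx} (h : GG.Adj x y) : lev y ≤ lev x + 1 := by
  by_contra hcon
  have := adj_lev h (by omega)
  rw [this] at hcon
  simp [lev] at hcon

lemma locFin : ∀ x, (GG.neighborSet x).Finite := by
  intro x
  refine (finite_lev (lev x + 1)).subset fun y hy => ?_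
  simp only [SimpleGraph.mem_neighborSet] at hy
  exact adj_lev_le hy

/-- Distance to the cut vertex of the level. -/
lemma walk_to_c (x : Vx) (m : ℕ) (hm : lev x = m) : ∃ w : GG.Walk x (c m), w.length ≤ 2 := by
  cases x with
  | c n =>
    simp only [lev] at hm
    subst hm
    exact ⟨SimpleGraph.Walk.nil, by simp⟩
  | h n j =>
    simp only [lev] at hm
    subst hm
    exact ⟨SimpleGraph.Walk.cons (adj_c_h n j).symm SimpleGraph.Walk.nil, by simp⟩
  | r n j t =>
    simp only [lev] at hm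
    subst hm
    exact ⟨SimpleGraph.Walk.cons (adj_h_r n j t).symm
      (SimpleGraph.Walk.cons (adj_c_h n j).symm SimpleGraph.Walk.nil), by simp⟩

lemma walk_c_c (n m : ℕ) (hnm : n ≤ m) : ∃ w : GG.Walk (c n) (c m), w.length ≤ 2 * (m - n) := by
  induction m, hnm using Nat.le_induction with
  | base => exact ⟨SimpleGraph.Walk.nil, by simp⟩
  | succ k hk ih =>
    obtain ⟨w, hw⟩ := ih
    refine ⟨(w.concat (adj_c_h k ⟨0, NN_pos _⟩)).concat (adj_h_c k ⟨0, NN_pos _⟩), ?_⟩
    simp only [SimpleGraph.Walk.length_concat]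
    omega

lemma walk_le (x y : Vx) (hxy : lev x ≤ lev y) :
    ∃ w : GG.Walk x y, w.length ≤ 2 * (lev y - lev x) + 4 := by
  obtain ⟨w1, h1⟩ := walk_to_c x _ rfl
  obtain ⟨w2, h2⟩ := walk_to_c y _ rfl
  obtain ⟨w3, h3⟩ := walk_c_c (lev x) (lev y) hxy
  refine ⟨w1.append (w3.append w2.reverse), ?_⟩
  simp only [SimpleGraph.Walk.length_append, SimpleGraph.Walk.length_reverse]
  omega

lemma GG_connected : GG.Connected := by
  have : Nonempty Vx := ⟨c 0⟩
  refine ⟨fun x y => ?_⟩
  rcases le_total (lev x) (lev y) with h | h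
  · obtain ⟨w, _⟩ := walk_le x y h
    exact w.reachable
  · obtain ⟨w, _⟩ := walk_le y x h
    exact w.reachable.symm

/-- The Lipschitz height. -/
def ht : Vx → ℤ
  | c n => 2 * n
  | h n _ => 2 * n + 1
  | r n _ _ => 2 * n + 1

lemma ht_lip {x y : Vx} (h : GG.Adj x y) : |ht x - ht y| ≤ 1 := by
  rw [GG_adj] at h
  obtain ⟨_, h⟩ := h
  cases x <;> cases y <;> simp only [Rel, or_false, false_or] at h <;> rw [abs_le] <;>
    simp only [ht] <;> omega

lemma ht_lev (x : Vx) : 2 * (lev x : ℤ) ≤ ht x ∧ ht x ≤ 2 * (lev x : ℤ) + 1 := by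
  cases x <;> simp only [ht, lev] <;> omega

lemma dist_le (x y : Vx) : (GG.dist x y : ℤ) ≤ |ht x - ht y| + 5 := by
  have h1 := ht_lev x
  have h2 := ht_lev y
  rcases le_total (lev x) (lev y) with h | h
  · obtain ⟨w, hw⟩ := walk_le x y h
    have h3 := SimpleGraph.dist_le w
    have h4 := neg_abs_le (ht x - ht y)
    omega
  · obtain ⟨w, hw⟩ := walk_le y x h
    have h3 := SimpleGraph.dist_le w
    rw [SimpleGraph.dist_comm] at h3
    have h4 := le_abs_self (ht x - ht y)
    omega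

/-- A Lipschitz function along a walk. -/
lemma lip_walk {W : Type*} {Γ : SimpleGraph W} {f : W → ℤ}
    (hf : ∀ x y, Γ.Adj x y → |f x - f y| ≤ 1) {x y : W} (w : Γ.Walk x y) :
    |f x - f y| ≤ w.length := by
  induction w with
  | nil => simp
  | @cons a b d hab q ih =>
    have := hf a b hab
    rw [abs_le] at this ih ⊢
    simp only [SimpleGraph.Walk.length_cons]
    push_cast
    constructor <;> linarith [this.1, this.2, ih.1, ih.2]

lemma lip_dist {W : Type*} {Γ : SimpleGraph W} {f : W → ℤ}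
    (hf : ∀ x y, Γ.Adj x y → |f x - f y| ≤ 1) {x y : W} (h : Γ.Reachable x y) :
    |f x - f y| ≤ Γ.dist x y := by
  obtain ⟨w, hw⟩ := h.exists_walk_length_eq_dist
  rw [← hw]
  exact lip_walk hf w

/-- Discrete intermediate value theorem along a walk. -/
lemma ivt_walk {W : Type*} {Γ : SimpleGraph W} {f : W → ℤ}
    (hf : ∀ x y, Γ.Adj x y → |f x - f y| ≤ 1) {x y : W} (w : Γ.Walk x y) (m : ℤ)
    (h1 : min (f x) (f y) ≤ m) (h2 : m ≤ max (f x) (f y)) : ∃ s ∈ w.support, f s = m := by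
  induction w with
  | @nil a =>
    refine ⟨a, by simp, ?_⟩
    simp only [min_self, max_self] at h1 h2
    omega
  | @cons a b d hab q ih =>
    by_cases ha : f a = m
    · exact ⟨a, by simp, ha⟩
    · have := hf a b hab
      rw [abs_le] at this
      obtain ⟨s, hs, hs2⟩ := ih (by omega) (by omega)
      exact ⟨s, by simp [hs], hs2⟩

/-- On a geodesic distances add up. -/
lemma geod_add {W : Type*} {Γ : SimpleGraph W} {x y s : W} (w : Γ.Walk x y)
    (hw : IsGeod Γ w) (hs : s ∈ w.support) : Γ.dist x s + Γ.dist s y ≤ Γ.dist x y := by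
  classical
  have h1 := SimpleGraph.dist_le (w.takeUntil s hs)
  have h2 := SimpleGraph.dist_le (w.dropUntil s hs)
  have h3 := congrArg SimpleGraph.Walk.length (w.take_spec hs)
  rw [SimpleGraph.Walk.length_append] at h3
  unfold IsGeod at hw
  omega

/-- Graphs with a Lipschitz height which controls distances have thin sides. -/
lemma side_thin {W : Type*} {Γ : SimpleGraph W} {f : W → ℤ} {C : ℤ} (hC : 0 ≤ C)
    (hf : ∀ x y, Γ.Adj x y → |f x - f y| ≤ 1) (hco : Γ.Connected)
    (hd : ∀ x y, (Γ.dist x y : ℤ) ≤ |f x - f y| + C) {x y z : W} (a : Γ.Walk x y)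
    (ha : IsGeod Γ a) (b : Γ.Walk y z) (c : Γ.Walk z x) (s : W) (hs : s ∈ a.support) :
    ∃ w, (w ∈ b.support ∨ w ∈ c.support) ∧ (Γ.dist s w : ℤ) ≤ 2 * C := by
  have h1 := geod_add a ha hs
  have h2 := lip_dist hf (hco.preconnected x s)
  have h3 := lip_dist hf (hco.preconnected s y)
  have h4 := hd x y
  have h6 : ∃ m : ℤ, min (f x) (f y) ≤ m ∧ m ≤ max (f x) (f y) ∧ |f s - m| ≤ C := by
    rcases le_total (f s) (min (f x) (f y)) with h | h
    · refine ⟨min (f x) (f y), le_rfl, min_le_max, ?_⟩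
      rw [abs_le] at h2 h3 ⊢
      rcases abs_cases (f x - f y) with h5 | h5 <;> omega
    · rcases le_total (f s) (max (f x) (f y)) with h' | h'
      · exact ⟨f s, h, h', by simpa using hC⟩
      · refine ⟨max (f x) (f y), min_le_max, le_rfl, ?_⟩
        rw [abs_le] at h2 h3 ⊢
        rcases abs_cases (f x - f y) with h5 | h5 <;> omega
  obtain ⟨m, hm1, hm2, hm3⟩ := h6
  obtain ⟨w, hw, hw2⟩ := ivt_walk hf (b.append c) m (by rw [min_comm]; exact hm1)
    (by rw [max_comm]; exact hm2)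
  refine ⟨w, ?_, ?_⟩
  · exact (SimpleGraph.Walk.mem_support_append_iff _ _).1 hw
  · have := hd s w
    rw [hw2] at this
    linarith

lemma hyp_of_height {W : Type*} {Γ : SimpleGraph W} {f : W → ℤ} (C : ℕ)
    (hf : ∀ x y, Γ.Adj x y → |f x - f y| ≤ 1) (hco : Γ.Connected)
    (hd : ∀ x y, (Γ.dist x y : ℤ) ≤ |f x - f y| + C) : GromovHyperbolic Γ := by
  refine ⟨2 * C, fun x y z a b c ha hb hc => ⟨?_, ?_, ?_⟩⟩
  · intro s hs
    obtain ⟨w, hw1, hw2⟩ := side_thin (by positivity) hf hco hd a ha b c s hs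
    exact ⟨w, hw1, by exact_mod_cast hw2⟩
  · intro s hs
    obtain ⟨w, hw1, hw2⟩ := side_thin (by positivity) hf hco hd b hb c a s hs
    exact ⟨w, hw1.symm, by exact_mod_cast hw2⟩
  · intro s hs
    obtain ⟨w, hw1, hw2⟩ := side_thin (by positivity) hf hco hd c hc a b s hs
    exact ⟨w, hw1, by exact_mod_cast hw2⟩

lemma GG_hyp : GromovHyperbolic GG :=
  hyp_of_height 5 (fun _ _ h => ht_lip h) GG_connected (fun x y => by
    exact_mod_cast dist_le x y)

end Pool.Agent.Q290.AH
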