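import Pool.Agent.Q290.AH.FK

/-! Finite energy in infinite volume and many disjoint patterns. -/

open MeasureTheory Filter Topology

namespace Pool.Agent.Q290.AH

universe u

variable {V : Type u} {G : SimpleGraph V}

instance [Countable V] : Countable (Sym2 V) := inferInstance

open Classical in
lemma continuous_ind {B : Set (Conf G)} (hB : IsClopen B) :
    Continuous (fun ω => if ω ∈ B then (1 : ℝ) else 0) := by
  have : (fun ω => if ω ∈ B then (1 : ℝ) else 0) = B.indicator (fun _ => (1 : ℝ)) := by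
    funext ω
    simp [Set.indicator]
  rw [this]
  exact continuous_const.indicator (by simp [hB.frontier_eq])

open Classical in
lemma integral_ind [Countable V] (μ : Measure (Conf G)) {B : Set (Conf G)} (hB : IsClopen B) :
    ∫ ω, (if ω ∈ B then (1 : ℝ) else 0) ∂μ = μ.real B := by
  have : (fun ω => if ω ∈ B then (1 : ℝ) else 0) = B.indicator (fun _ => (1 : ℝ)) := by
    funext ω
    simp [Set.indicator]
  rw [this, integral_indicator hB.isOpen.measurableSet]
  simp

lemma isClopen_coord (e : G.edgeSet) (b : Bool) : IsClopen {ω : Conf G | ω e = b} := by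
  have : {ω : Conf G | ω e = b} = (fun ω : Conf G => ω e) ⁻¹' {b} := rfl
  rw [this]
  exact (isClopen_discrete {b}).preimage (continuous_apply e)

open Classical in
/-- `B` does not depend on the edges in `D`. -/
def NotDep (B : Set (Conf G)) (D : Set G.edgeSet) : Prop :=
  ∀ e ∈ D, ∀ (ω : Conf G) (b : Bool), Function.update ω e b ∈ B ↔ ω ∈ B

lemma energy [Countable V] {p : ℝ} (hp0 : 0 < p) (hp1 : p < 1) {μ : Measure (Conf G)}
    (hμ : IsFreeFKIsing G p μ) (e : G.edgeSet) (b : Bool) {B : Set (Conf G)} (hB : IsClopen B)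
    (hd : NotDep B {e}) :
    eps p * μ.real B ≤ μ.real (B ∩ {ω | ω e = b}) := by
  classical
  obtain ⟨hP, H, ⟨hm, _, hE⟩, hl⟩ := hμ
  have hB2 : IsClopen (B ∩ {ω | ω e = b}) := hB.inter (isClopen_coord e b)
  have h1 := hl _ (continuous_ind hB)
  have h2 := hl _ (continuous_ind hB2)
  rw [integral_ind μ hB] at h1
  rw [integral_ind μ hB2] at h2
  refine le_of_tendsto_of_tendsto (h1.const_mul (eps p)) h2 ?_
  obtain ⟨k0, hk0⟩ := hE e.1 e.2
  filter_upwards [eventually_ge_atTop k0] with k hk
  have hmono : Monotone (fun k => (H k).edges) := monotone_nat_of_le_succ fun k => (hm k).2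
  have he : e.1 ∈ (H k).edges := hmono hk hk0
  have h3 := fkExp_energy hp0 hp1 (H k) e he (fun ω => if ω ∈ B then (1 : ℝ) else 0)
    (fun ω => by positivity) (fun ω b => by simp only [hd e rfl ω b]) b
  refine h3.trans (le_of_eq ?_)
  congr 1
  funext ω
  by_cases h4 : ω e = b
  · by_cases h5 : ω ∈ B
    · simp [h4, h5]
    · simp [h5]
  · simp [h4]

/-- the pattern event -/
def Pat (D : Finset G.edgeSet) (s : G.edgeSet → Bool) : Set (Conf G) :=
  {ω | ∀ e ∈ D, ω e = s e}

lemma Pat_eq (D : Finset G.edgeSet) (s : G.edgeSet → Bool) :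
    Pat D s = ⋂ e ∈ D, {ω : Conf G | ω e = s e} := by
  ext ω
  simp [Pat]

lemma isClopen_Pat (D : Finset G.edgeSet) (s : G.edgeSet → Bool) : IsClopen (Pat D s) := by
  rw [Pat_eq]
  exact isClopen_biInter_finset fun e _ => isClopen_coord e (s e)

lemma Pat_notDep (D : Finset G.edgeSet) (s : G.edgeSet → Bool) (F : Set G.edgeSet)
    (hF : ∀ e ∈ F, e ∉ D) : NotDep (Pat D s) F := by
  classical
  intro e he ω b
  unfold Pat
  simp only [Set.mem_ofPred_eq]
  constructor
  · intro h f hf
    have hne : f ≠ e := fun h' => hF e he (h' ▸ hf)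
    have := h f hf
    rwa [Function.update_of_ne hne] at this
  · intro h f hf
    have hne : f ≠ e := fun h' => hF e he (h' ▸ hf)
    rw [Function.update_of_ne hne]
    exact h f hf

lemma NotDep.inter {B B' : Set (Conf G)} {F : Set G.edgeSet} (h : NotDep B F)
    (h' : NotDep B' F) : NotDep (B ∩ B') F := fun e he ω b => by
  simp only [Set.mem_inter_iff, h e he ω b, h' e he ω b]

lemma NotDep.compl {B : Set (Conf G)} {F : Set G.edgeSet} (h : NotDep B F) :
    NotDep Bᶜ F := fun e he ω b => by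
  simp only [Set.mem_compl_iff, h e he ω b]

lemma NotDep.mono {B : Set (Conf G)} {F F' : Set G.edgeSet} (h : NotDep B F) (hF : F' ⊆ F) :
    NotDep B F' := fun e he ω b => h e (hF he) ω b

lemma pattern_energy [Countable V] {p : ℝ} (hp0 : 0 < p) (hp1 : p < 1) {μ : Measure (Conf G)}
    (hμ : IsFreeFKIsing G p μ) (s : G.edgeSet → Bool) (D : Finset G.edgeSet)
    {B : Set (Conf G)} (hB : IsClopen B) (hd : NotDep B (D : Set G.edgeSet)) :
    eps p ^ D.card * μ.real B ≤ μ.real (B ∩ Pat D s) := by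
  classical
  have hP : IsProbabilityMeasure μ := hμ.1
  induction D using Finset.induction_on with
  | empty => simp [Pat]
  | @insert e D he ih =>
    have h1 := ih (hd.mono (by simp))
    have h2 : NotDep (B ∩ Pat D s) {e} := by
      refine (hd.mono (by simp)).inter (Pat_notDep D s _ ?_)
      rintro f rfl
      exact he
    have h3 := energy hp0 hp1 hμ e (s e) (hB.inter (isClopen_Pat D s)) h2
    have h4 : B ∩ Pat D s ∩ {ω | ω e = s e} = B ∩ Pat (insert e D) s := by
      ext ω
      simp only [Pat, Set.mem_inter_iff, Set.mem_ofPred_eq, Finset.mem_insert, forall_eq_or_imp]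
      tauto
    rw [h4] at h3
    rw [Finset.card_insert_of_notMem he, pow_succ']
    calc eps p * eps p ^ D.card * μ.real B = eps p * (eps p ^ D.card * μ.real B) := by ring
      _ ≤ eps p * μ.real (B ∩ Pat D s) :=
          mul_le_mul_of_nonneg_left h1 (eps_pos hp0 hp1).le
      _ ≤ _ := h3

/-- No pattern of a disjoint family occurs. -/
lemma none_prob [Countable V] {p : ℝ} (hp0 : 0 < p) (hp1 : p < 1) {μ : Measure (Conf G)}
    (hμ : IsFreeFKIsing G p μ) {ι : Type} (s : ι → G.edgeSet → Bool) (D : ι → Finset G.edgeSet)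
    (m : ℕ) (hm : ∀ i, (D i).card ≤ m) (hdis : ∀ i j, i ≠ j → ∀ e ∈ D i, e ∉ D j)
    (J : Finset ι) :
    μ.real {ω | ∀ i ∈ J, ω ∉ Pat (D i) (s i)} ≤ (1 - eps p ^ m) ^ J.card ∧
    IsClopen {ω | ∀ i ∈ J, ω ∉ Pat (D i) (s i)} ∧
    ∀ F : Set G.edgeSet, (∀ i ∈ J, ∀ e ∈ F, e ∉ D i) →
      NotDep {ω | ∀ i ∈ J, ω ∉ Pat (D i) (s i)} F := by
  classical
  have hP : IsProbabilityMeasure μ := hμ.1
  induction J using Finset.induction_on with
  | empty =>
    refine ⟨by simp, by simp [isClopen_univ], fun F _ e he ω b => by simp⟩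
  | @insert i J hi ih =>
    obtain ⟨h1, h2, h3⟩ := ih
    have hset : {ω | ∀ j ∈ insert i J, ω ∉ Pat (D j) (s j)} =
        {ω | ∀ j ∈ J, ω ∉ Pat (D j) (s j)} ∩ (Pat (D i) (s i))ᶜ := by
      ext ω
      simp only [Finset.mem_insert, forall_eq_or_imp, Set.mem_ofPred_eq, Set.mem_inter_iff,
        Set.mem_compl_iff]
      tauto
    rw [hset]
    refine ⟨?_, h2.inter (isClopen_Pat _ _).compl, ?_⟩
    · have h4 := pattern_energy hp0 hp1 hμ (s i) (D i) h2
        (h3 (D i : Set G.edgeSet) (fun j hj e he => hdis i j (fun h => hi (h ▸ hj)) e he))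
      have h5 : eps p ^ m ≤ eps p ^ (D i).card :=
        pow_le_pow_of_le_one (eps_pos hp0 hp1).le (eps_lt_one hp0 hp1).le (hm i)
      set A := {ω : Conf G | ∀ j ∈ J, ω ∉ Pat (D j) (s j)}
      have h6 : μ.real (A ∩ (Pat (D i) (s i))ᶜ) = μ.real A - μ.real (A ∩ Pat (D i) (s i)) := by
        have := measureReal_inter_add_sdiff (μ := μ) (s := A)
          (isClopen_Pat (D i) (s i)).isOpen.measurableSet
        have h7 : A ∩ (Pat (D i) (s i))ᶜ = A \ Pat (D i) (s i) := rfl
        rw [h7]
        linarith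
      rw [h6, Finset.card_insert_of_notMem hi, pow_succ]
      have h8 : 0 ≤ μ.real A := measureReal_nonneg
      have h9 : eps p ^ m * μ.real A ≤ eps p ^ (D i).card * μ.real A :=
        mul_le_mul_of_nonneg_right h5 h8
      have h10 : 0 ≤ 1 - eps p ^ m := by
        have := pow_le_one₀ (n := m) (eps_pos hp0 hp1).le (eps_lt_one hp0 hp1).le
        linarith
      nlinarith [mul_le_mul_of_nonneg_right h1 h10]
    · intro F hF
      exact (h3 F fun j hj => hF j (Finset.mem_insert_of_mem hj)).inter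
        (Pat_notDep _ _ F (hF i (Finset.mem_insert_self i J))).compl

end Pool.Agent.Q290.AH
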