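import Pool.Agent.Q290.AH.Exist
import Pool.Agent.Q290.AH.Det

/-! Almost surely all but finitely many levels have a good wheel and an open passage. -/

open MeasureTheory Filter Topology

namespace Pool.Agent.Q290.AH

open Vx

lemma P_adj (n : ℕ) (j : Fin (NN n)) (i : ℕ) (hi : i ≤ LL n) :
    GG.Adj (P n j i) (P n j (i + 1)) := by
  classical
  have hg : Good (fun e => decide (h n j ∉ e.1)) n j := by
    intro e _
    simp
  obtain ⟨h, _⟩ := open_adj.1 (good_open hg hi)
  exact h

/-- spoke -/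
def spoke (n : ℕ) (j : Fin (NN n)) (t : Fin (LL n)) : GG.edgeSet :=
  ⟨s(h n j, r n j t), adj_h_r n j t⟩

/-- rim edge -/
def rim (n : ℕ) (j : Fin (NN n)) (i : Fin (LL n + 1)) : GG.edgeSet :=
  ⟨s(P n j i.1, P n j (i.1 + 1)), P_adj n j i.1 (by omega)⟩

/-- passage edge from the left -/
def passL (n : ℕ) (j : Fin (NN n)) : GG.edgeSet := ⟨s(c n, h n j), adj_c_h n j⟩

/-- passage edge to the right -/
def passR (n : ℕ) (j : Fin (NN n)) : GG.edgeSet := ⟨s(h n j, c (n + 1)), adj_h_c n j⟩

open Classical in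
/-- edges of the wheel -/
noncomputable def D (n : ℕ) (j : Fin (NN n)) : Finset GG.edgeSet :=
  Finset.univ.image (spoke n j) ∪ Finset.univ.image (rim n j)

open Classical in
/-- edges of the passage -/
noncomputable def D' (n : ℕ) (j : Fin (NN n)) : Finset GG.edgeSet := {passL n j, passR n j}

lemma card_D (n : ℕ) (j : Fin (NN n)) : (D n j).card ≤ 8 * n + 7 := by
  classical
  unfold D
  refine (Finset.card_union_le _ _).trans ?_
  have h1 := Finset.card_image_le (s := Finset.univ) (f := spoke n j)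
  have h2 := Finset.card_image_le (s := Finset.univ) (f := rim n j)
  simp only [Finset.card_univ, Fintype.card_fin] at h1 h2
  unfold LL at *
  omega

lemma card_D' (n : ℕ) (j : Fin (NN n)) : (D' n j).card ≤ 8 * n + 7 := by
  classical
  unfold D'
  have := Finset.card_le_two (a := passL n j) (b := passR n j)
  omega

lemma P_mem (n : ℕ) (j : Fin (NN n)) (i : ℕ) :
    P n j i = c n ∨ ∃ t, P n j i = r n j t := by
  unfold P
  split_ifs with h
  · exact Or.inr ⟨_, rfl⟩
  · exact Or.inl rfl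

/-- each edge of the wheel touches its own rim -/
lemma D_touch {n : ℕ} {j : Fin (NN n)} {e : GG.edgeSet} (he : e ∈ D n j) :
    ∃ t, r n j t ∈ e.1 := by
  classical
  unfold D at he
  simp only [Finset.mem_union, Finset.mem_image, Finset.mem_univ, true_and] at he
  rcases he with ⟨t, rfl⟩ | ⟨i, rfl⟩
  · exact ⟨t, by simp [spoke]⟩
  · have hadj := P_adj n j i.1 (by omega)
    rcases P_mem n j i.1 with h1 | ⟨t, h1⟩
    · rcases P_mem n j (i.1 + 1) with h2 | ⟨t, h2⟩
      · rw [h1, h2] at hadj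
        exact absurd rfl hadj.ne
      · exact ⟨t, by simp [rim, h2]⟩
    · exact ⟨t, by simp [rim, h1]⟩

/-- all vertices of an edge of the wheel belong to the wheel -/
lemma D_own {n : ℕ} {j : Fin (NN n)} {e : GG.edgeSet} (he : e ∈ D n j) (v : Vx)
    (hv : v ∈ e.1) : v = c n ∨ v = h n j ∨ ∃ t, v = r n j t := by
  classical
  unfold D at he
  simp only [Finset.mem_union, Finset.mem_image, Finset.mem_univ, true_and] at he
  rcases he with ⟨t, rfl⟩ | ⟨i, rfl⟩
  · simp only [spoke, Sym2.mem_iff] at hv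
    rcases hv with rfl | rfl
    · exact Or.inr (Or.inl rfl)
    · exact Or.inr (Or.inr ⟨t, rfl⟩)
  · simp only [rim, Sym2.mem_iff] at hv
    rcases hv with rfl | rfl
    · rcases P_mem n j i.1 with h1 | h1
      · exact Or.inl h1
      · exact Or.inr (Or.inr h1)
    · rcases P_mem n j (i.1 + 1) with h1 | h1
      · exact Or.inl h1
      · exact Or.inr (Or.inr h1)

lemma D_disj (n : ℕ) (i j : Fin (NN n)) (hij : i ≠ j) (e : GG.edgeSet) (he : e ∈ D n i) :
    e ∉ D n j := by
  intro hj
  obtain ⟨t, ht⟩ := D_touch he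
  rcases D_own hj _ ht with h | h | ⟨s, h⟩
  · exact absurd h (by simp)
  · exact absurd h (by simp)
  · simp only [Vx.r.injEq, heq_eq_eq, true_and] at h
    exact hij h.1

lemma D'_disj (n : ℕ) (i j : Fin (NN n)) (hij : i ≠ j) (e : GG.edgeSet) (he : e ∈ D' n i) :
    e ∉ D' n j := by
  classical
  intro hj
  unfold D' at he hj
  simp only [Finset.mem_insert, Finset.mem_singleton] at he hj
  have h1 : h n i ∈ e.1 := by rcases he with rfl | rfl <;> simp [passL, passR]
  rcases hj with rfl | rfl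
  · simp [passL] at h1
    exact hij h1
  · simp [passR] at h1
    exact hij h1

/-- a rim-incident edge is in `D` -/
lemma mem_D {n : ℕ} {j : Fin (NN n)} (e : GG.edgeSet) (he : ∃ t, r n j t ∈ e.1) : e ∈ D n j := by
  classical
  obtain ⟨t, ht⟩ := he
  obtain ⟨e, he⟩ := e
  obtain ⟨y, rfl⟩ := Sym2.mem_iff_exists.1 ht
  have hadj : GG.Adj (r n j t) y := he
  unfold D
  simp only [Finset.mem_union, Finset.mem_image, Finset.mem_univ, true_and]
  have ht2 := t.2
  rcases adj_r_cases hadj with ⟨rfl, h1 | h1⟩ | rfl | ⟨s, rfl, h1 | h1⟩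
  · right
    refine ⟨⟨0, by omega⟩, Subtype.ext ?_⟩
    simp only [rim]
    have := P_rim n j t
    rw [h1] at this
    rw [P_zero, this, Sym2.eq_swap]
  · right
    refine ⟨⟨t.1 + 1, by omega⟩, Subtype.ext ?_⟩
    simp only [rim]
    rw [P_rim, show t.1 + 1 + 1 = LL n + 1 by omega, P_last]
  · left
    exact ⟨t, Subtype.ext (by simp only [spoke]; exact Sym2.eq_swap)⟩
  · right
    refine ⟨⟨t.1 + 1, by omega⟩, Subtype.ext ?_⟩
    simp only [rim]
    rw [P_rim]
    have := P_rim n j s
    rw [← h1] at this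
    rw [this]
  · right
    have hs := s.2
    refine ⟨⟨s.1 + 1, by omega⟩, Subtype.ext ?_⟩
    simp only [rim]
    rw [P_rim]
    have := P_rim n j t
    rw [← h1] at this
    rw [this, Sym2.eq_swap]

open Classical in
/-- the pattern of a good wheel -/
noncomputable def sg (n : ℕ) (j : Fin (NN n)) (e : GG.edgeSet) : Bool := decide (h n j ∉ e.1)

lemma good_of_Pat {n : ℕ} {j : Fin (NN n)} {ω : Conf GG} (hω : ω ∈ Pat (D n j) (sg n j)) :
    Good ω n j := by
  intro e he
  rw [hω e (mem_D e he)]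
  simp [sg]

/-- passage through the level -/
lemma pass_of_Pat {n : ℕ} {j : Fin (NN n)} {ω : Conf GG}
    (hω : ω ∈ Pat (D' n j) (fun _ => true)) :
    (openGraph GG ω).Reachable (c n) (c (n + 1)) := by
  classical
  have h1 : ω (passL n j) = true := hω _ (by simp [D'])
  have h2 : ω (passR n j) = true := hω _ (by simp [D'])
  have h3 : (openGraph GG ω).Adj (c n) (h n j) := open_adj.2 ⟨adj_c_h n j, h1⟩
  have h4 : (openGraph GG ω).Adj (h n j) (c (n + 1)) := open_adj.2 ⟨adj_h_c n j, h2⟩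
  exact h3.reachable.trans h4.reachable

/-- the numerical bound -/
lemma numeric {ε : ℝ} (h0 : 0 < ε) (h1 : ε < 1) :
    ∀ᶠ n : ℕ in atTop, (1 - ε ^ (8 * n + 7)) ^ NN n ≤ Real.exp (-1) ^ n := by
  obtain ⟨K, hK⟩ := exists_nat_gt (2 / ε ^ 8)
  filter_upwards [eventually_ge_atTop K] with n hn
  have h2 : (2 : ℝ) ≤ (n + 1) * ε ^ 8 := by
    have h3 : (0 : ℝ) < ε ^ 8 := by positivity
    have h4 : (2 / ε ^ 8 : ℝ) < n + 1 := by
      have : (K : ℝ) ≤ n := by exact_mod_cast hn
      linarith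
    rw [div_lt_iff₀ h3] at h4
    linarith
  have h5 : (0 : ℝ) ≤ 1 - ε ^ (8 * n + 7) := by
    have := pow_le_one₀ (n := 8 * n + 7) h0.le h1.le
    linarith
  have h6 : 1 - ε ^ (8 * n + 7) ≤ Real.exp (-(ε ^ (8 * n + 7))) := by
    have := Real.add_one_le_exp (-(ε ^ (8 * n + 7)))
    linarith
  calc (1 - ε ^ (8 * n + 7)) ^ NN n ≤ Real.exp (-(ε ^ (8 * n + 7))) ^ NN n :=
        pow_le_pow_left₀ h5 h6 _
    _ = Real.exp (-(NN n * ε ^ (8 * n + 7))) := by
        rw [← Real.exp_nat_mul]
        ring_nf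
    _ ≤ Real.exp (-(n : ℝ)) := by
        apply Real.exp_le_exp.2
        apply neg_le_neg
        have h7 : ε ^ (8 * (n + 1)) ≤ ε ^ (8 * n + 7) :=
          pow_le_pow_of_le_one h0.le h1.le (by omega)
        have h8 : ((NN n : ℕ) : ℝ) = ((n : ℝ) + 1) ^ (n + 1) := by
          unfold NN
          push_cast
          ring
        calc (n : ℝ) ≤ 2 ^ n := by exact_mod_cast Nat.lt_two_pow_self.le
          _ ≤ 2 ^ (n + 1) := pow_le_pow_right₀ (by norm_num) (Nat.le_succ n)
          _ ≤ ((n + 1) * ε ^ 8) ^ (n + 1) := pow_le_pow_left₀ (by norm_num) h2 _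
          _ = ((n : ℝ) + 1) ^ (n + 1) * ε ^ (8 * (n + 1)) := by
              rw [mul_pow, ← pow_mul]
          _ ≤ NN n * ε ^ (8 * n + 7) := by
              rw [h8]
              exact mul_le_mul_of_nonneg_left h7 (by positivity)
    _ = Real.exp (-1) ^ n := by
        rw [← Real.exp_nat_mul]
        ring_nf

/-- The bad event at level `n`. -/
def Bad (n : ℕ) : Set (Conf GG) :=
  {ω | ∀ j ∈ (Finset.univ : Finset (Fin (NN n))), ω ∉ Pat (D n j) (sg n j)} ∪
  {ω | ∀ j ∈ (Finset.univ : Finset (Fin (NN n))), ω ∉ Pat (D' n j) (fun _ => true)}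

lemma bad_prob {p : ℝ} (hp0 : 0 < p) (hp1 : p < 1) {μ : Measure (Conf GG)}
    (hμ : IsFreeFKIsing GG p μ) (n : ℕ) :
    μ.real (Bad n) ≤ 2 * (1 - eps p ^ (8 * n + 7)) ^ NN n := by
  have hP : IsProbabilityMeasure μ := hμ.1
  have h1 := (none_prob hp0 hp1 hμ (sg n) (D n) (8 * n + 7) (card_D n) (D_disj n)
    Finset.univ).1
  have h2 := (none_prob hp0 hp1 hμ (fun (_ : Fin (NN n)) _ => true) (D' n) (8 * n + 7)
    (card_D' n) (D'_disj n) Finset.univ).1
  have h3 := measureReal_union_le (μ := μ)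
    {ω | ∀ j ∈ (Finset.univ : Finset (Fin (NN n))), ω ∉ Pat (D n j) (sg n j)}
    {ω | ∀ j ∈ (Finset.univ : Finset (Fin (NN n))), ω ∉ Pat (D' n j) (fun _ => true)}
  simp only [Finset.card_univ, Fintype.card_fin] at h1 h2
  unfold Bad
  linarith

lemma ae_eventually {p : ℝ} (hp0 : 0 < p) (hp1 : p < 1) {μ : Measure (Conf GG)}
    (hμ : IsFreeFKIsing GG p μ) : ∀ᵐ ω ∂μ, ∀ᶠ n in atTop, ω ∉ Bad n := by
  have hP : IsProbabilityMeasure μ := hμ.1
  apply ae_eventually_notMem
  have hs : Summable (fun n : ℕ => μ.real (Bad n)) := by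
    have h1 : Summable (fun n : ℕ => 2 * Real.exp (-1) ^ n) := by
      apply Summable.mul_left
      apply summable_geometric_of_lt_one (Real.exp_pos _).le
      rw [← Real.exp_zero]
      exact Real.exp_lt_exp.2 (by norm_num)
    refine Summable.of_norm_bounded_eventually_nat h1 ?_
    filter_upwards [numeric (eps_pos hp0 hp1) (eps_lt_one hp0 hp1)] with n hn
    rw [Real.norm_of_nonneg measureReal_nonneg]
    have := bad_prob hp0 hp1 hμ n
    linarith
  have h2 : ∀ n, μ (Bad n) = ENNReal.ofReal (μ.real (Bad n)) := fun n => by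
    rw [ofReal_measureReal]
  simp_rw [h2]
  exact hs.tsum_ofReal_ne_top

/-- The cut vertices block. -/
lemma cut_walk {ω : Conf GG} {x y : Vx} (w : (openGraph GG ω).Walk x y) (n : ℕ)
    (h1 : lev x < n) (h2 : n ≤ lev y) : c n ∈ w.support := by
  induction w with
  | nil => omega
  | @cons a b d hab q ih =>
    rw [SimpleGraph.Walk.support_cons, List.mem_cons]
    right
    by_cases hb : lev b < n
    · exact ih hb h2
    · obtain ⟨hadj, _⟩ := open_adj.1 hab
      have h3 := adj_lev hadj (by omega)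
      have h4 : lev b = lev a + 1 := by rw [h3]; rfl
      have h5 : lev a + 1 = n := by omega
      rw [h5] at h3
      rw [← h3]
      exact q.start_mem_support

lemma cluster_contains {ω : Conf GG} (C : (openGraph GG ω).ConnectedComponent)
    (hC : C.supp.Infinite) : ∃ m, ∀ n, m ≤ n → c n ∈ C.supp := by
  classical
  obtain ⟨v, hv⟩ := hC.nonempty
  refine ⟨lev v + 1, fun n hn => ?_⟩
  have h1 : ∃ y ∈ C.supp, n < lev y := by
    by_contra hcon
    push Not at hcon
    exact hC ((finite_lev n).subset fun y hy => hcon y hy)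
  obtain ⟨y, hy, hny⟩ := h1
  have h2 : (openGraph GG ω).Reachable v y := by
    rw [SimpleGraph.ConnectedComponent.mem_supp_iff] at hv hy
    exact SimpleGraph.ConnectedComponent.exact (hv.trans hy.symm)
  obtain ⟨w⟩ := h2
  have h3 := cut_walk w n (by omega) hny.le
  have h4 : (openGraph GG ω).Reachable v (c n) := (w.takeUntil _ h3).reachable
  rw [SimpleGraph.ConnectedComponent.mem_supp_iff] at hv ⊢
  rw [← hv]
  exact SimpleGraph.ConnectedComponent.sound h4.symm

lemma exists_infinite {ω : Conf GG} (n0 : ℕ) (h : ∀ n, n0 ≤ n → ω ∉ Bad n) :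
    HasInfiniteCluster GG ω := by
  refine ⟨(openGraph GG ω).connectedComponentMk (c n0), ?_⟩
  have h1 : ∀ n, n0 ≤ n → (openGraph GG ω).Reachable (c n0) (c n) := by
    intro n hn
    induction n, hn using Nat.le_induction with
    | base => exact SimpleGraph.Reachable.refl _
    | succ k hk ih =>
      have h2 := h k hk
      simp only [Bad, Set.mem_union, Set.mem_ofPred_eq, Finset.mem_univ, true_implies,
        not_or, not_forall, not_not] at h2
      obtain ⟨_, j, hj⟩ := h2
      exact ih.trans (pass_of_Pat hj)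
  have h2 : Set.range (fun n => c (n0 + n)) ⊆
      ((openGraph GG ω).connectedComponentMk (c n0)).supp := by
    rintro _ ⟨n, rfl⟩
    rw [SimpleGraph.ConnectedComponent.mem_supp_iff]
    exact SimpleGraph.ConnectedComponent.sound (h1 (n0 + n) (by omega)).symm
  refine Set.Infinite.mono h2 (Set.infinite_range_of_injective ?_)
  intro a b hab
  simpa using hab

lemma all_fail {ω : Conf GG} (n0 : ℕ) (h : ∀ n, n0 ≤ n → ω ∉ Bad n)
    (C : (openGraph GG ω).ConnectedComponent) (hC : C.supp.Infinite) :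
    ¬ AnchoredHyperbolic C.toSimpleGraph := by
  obtain ⟨m, hm⟩ := cluster_contains C hC
  apply not_anchored (max n0 m)
  · intro n hn
    exact hm n ((le_max_right _ _).trans hn)
  · intro n hn
    have h2 := h n ((le_max_left _ _).trans hn)
    simp only [Bad, Set.mem_union, Set.mem_ofPred_eq, Finset.mem_univ, true_implies,
      not_or, not_forall, not_not] at h2
    obtain ⟨⟨j, hj⟩, _⟩ := h2
    exact ⟨j, good_of_Pat hj⟩

lemma main_ae {p : ℝ} (hp0 : 0 < p) (hp1 : p < 1) {μ : Measure (Conf GG)}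
    (hμ : IsFreeFKIsing GG p μ) : ∀ᵐ ω ∂μ, HasInfiniteCluster GG ω ∧
      ∀ C : (openGraph GG ω).ConnectedComponent, C.supp.Infinite →
        ¬ AnchoredHyperbolic C.toSimpleGraph := by
  filter_upwards [ae_eventually hp0 hp1 hμ] with ω hω
  obtain ⟨n0, h0⟩ := eventually_atTop.1 hω
  exact ⟨exists_infinite n0 h0, fun C hC => all_fail n0 h0 C hC⟩

lemma crit_zero : criticalP GG = 0 := by
  unfold criticalP
  apply le_antisymm
  · apply le_of_forall_pos_le_add
    intro δ hδ
    rw [zero_add]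
    set p := min δ (1 / 2) with hp
    have hp0 : 0 < p := lt_min hδ (by norm_num)
    have hp1 : p < 1 := lt_of_le_of_lt (min_le_right _ _) (by norm_num)
    refine (csInf_le ⟨0, fun q hq => hq.1⟩ ?_).trans (min_le_left δ (1 / 2))
    obtain ⟨μ, hμ⟩ := exists_free (G := GG) hp0 hp1
    refine ⟨hp0.le, hp1.le, μ, hμ, ?_⟩
    have hP : IsProbabilityMeasure μ := hμ.1
    have h1 : ∀ᵐ ω ∂μ, ω ∈ {ω | HasInfiniteCluster GG ω} :=
      (main_ae hp0 hp1 hμ).mono fun ω h => h.1
    have h2 : μ {ω | HasInfiniteCluster GG ω} = 1 := by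
      rw [← measure_univ (μ := μ)]
      exact measure_congr (Filter.eventuallyEq_univ.2 h1)
    rw [h2]
    exact one_pos
  · exact Real.sInf_nonneg fun q hq => hq.1

end Pool.Agent.Q290.AH
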